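import Pool.Agent.Helper28.WK.StA

/-!
# Project WK, module LFM: lifting solutions of the relation from `ZMod (2^M)` to the integers
-/

set_option autoImplicit false

namespace Pool.Agent.Helper97.WK

open Pool.Agent.Helper14.CV Pool.Agent.Helper28.WK

/-- The plane. -/
private abbrev Pl (r s : ℕ) : Type := ZMod (2 ^ r) × ZMod (2 ^ s)

private lemma unit_aux (s : ℕ) (z : ℤ) (y : ZMod (2 ^ s)) :
    IsUnit (1 + 4 * (z : ZMod (2 ^ s)) * y) := by
  have h2 : IsNilpotent (2 : ZMod (2 ^ s)) := by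
    refine ⟨s, ?_⟩
    have h : ((2 ^ s : ℕ) : ZMod (2 ^ s)) = 0 := ZMod.natCast_self _
    push_cast at h
    exact h
  have h4 : IsNilpotent (4 * (z : ZMod (2 ^ s)) * y) := by
    have : (4 * (z : ZMod (2 ^ s)) * y) = 2 * (2 * (z : ZMod (2 ^ s)) * y) := by ring
    rw [this]
    exact (Commute.all _ _).isNilpotent_mul_right h2
  exact h4.isUnit_one_add

/-- The fractional map is injective. -/
private lemma frac_inj (s : ℕ) (z : ℤ) : Function.Injective
    (fun y : ZMod (2 ^ s) => y * (1 + 4 * (z : ZMod (2 ^ s)) * y)⁻¹) := by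
  intro y y' h
  simp only at h
  have h1 := ZMod.mul_inv_of_unit _ (unit_aux s z y)
  have h2 := ZMod.mul_inv_of_unit _ (unit_aux s z y')
  have h3 : y * (1 + 4 * (z : ZMod (2 ^ s)) * y') = y' * (1 + 4 * (z : ZMod (2 ^ s)) * y) := by
    calc y * (1 + 4 * (z : ZMod (2 ^ s)) * y')
        = (y * (1 + 4 * (z : ZMod (2 ^ s)) * y)⁻¹) * (1 + 4 * (z : ZMod (2 ^ s)) * y) *
            (1 + 4 * (z : ZMod (2 ^ s)) * y') := by
          rw [mul_assoc y, mul_comm (1 + 4 * (z : ZMod (2 ^ s)) * y)⁻¹, h1, mul_one]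
      _ = (y' * (1 + 4 * (z : ZMod (2 ^ s)) * y')⁻¹) * (1 + 4 * (z : ZMod (2 ^ s)) * y) *
            (1 + 4 * (z : ZMod (2 ^ s)) * y') := by rw [h]
      _ = y' * (1 + 4 * (z : ZMod (2 ^ s)) * y) *
            ((1 + 4 * (z : ZMod (2 ^ s)) * y') * (1 + 4 * (z : ZMod (2 ^ s)) * y')⁻¹) := by ring
      _ = y' * (1 + 4 * (z : ZMod (2 ^ s)) * y) := by rw [h2, mul_one]
  linear_combination h3

/-- The point map of `A^z`. -/
private def al (r s : ℕ) (z : ℤ) (p : Pl r s) : Pl r s :=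
  (p.1 + (z : ZMod (2 ^ r)), p.2 * (1 + 4 * (z : ZMod (2 ^ s)) * p.2)⁻¹)

/-- The point map of `B^z`. -/
private def be (r s : ℕ) (z : ℤ) (p : Pl r s) : Pl r s :=
  (p.1 * (1 + 4 * (z : ZMod (2 ^ r)) * p.1)⁻¹, p.2 + (z : ZMod (2 ^ s)))

private lemma al_inj (r s : ℕ) (z : ℤ) : Function.Injective (al r s z) := by
  rintro ⟨x, y⟩ ⟨x', y'⟩ h
  simp only [al, Prod.mk.injEq] at h
  have h1 := add_right_cancel h.1
  have h2 := frac_inj s z h.2
  rw [h1, h2]

private lemma be_inj (r s : ℕ) (z : ℤ) : Function.Injective (be r s z) := by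
  rintro ⟨x, y⟩ ⟨x', y'⟩ h
  simp only [be, Prod.mk.injEq] at h
  have h1 := frac_inj r z h.1
  have h2 := add_right_cancel h.2
  rw [h1, h2]

private instance fin_pl (r s : ℕ) : Fintype (Pl r s) := by
  have : NeZero (2 ^ r) := ⟨by positivity⟩
  have : NeZero (2 ^ s) := ⟨by positivity⟩
  infer_instance

private lemma al_bij (r s : ℕ) (z : ℤ) : Function.Bijective (al r s z) :=
  Finite.injective_iff_bijective.mp (al_inj r s z)

private lemma be_bij (r s : ℕ) (z : ℤ) : Function.Bijective (be r s z) :=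
  Finite.injective_iff_bijective.mp (be_inj r s z)

/-- The point map of `C⁻¹ = A B⁻¹`. -/
private def ga (r s : ℕ) (p : Pl r s) : Pl r s := be r s (-1) (al r s 1 p)

private lemma ga_bij (r s : ℕ) : Function.Bijective (ga r s) :=
  (be_bij r s (-1)).comp (al_bij r s 1)

/-- Coboundary of a pair of functions on the plane. -/
private def cob (r s : ℕ) (H : (Pl r s → ℤ) × (Pl r s → ℤ)) : Pl r s → ℤ :=
  fun p => H.1 (al r s 1 p) - H.1 p - (H.2 (ga r s p) - H.2 p)

/-- Range of the coboundary map. -/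
private def Mg (r s : ℕ) : AddSubgroup (Pl r s → ℤ) where
  carrier := {E | ∃ H, cob r s H = E}
  add_mem' := by
    rintro _ _ ⟨H, rfl⟩ ⟨K, rfl⟩
    refine ⟨H + K, ?_⟩
    funext p
    simp only [cob, Prod.fst_add, Prod.snd_add, Pi.add_apply]
    ring
  zero_mem' := by
    refine ⟨0, ?_⟩
    funext p
    simp [cob]
  neg_mem' := by
    rintro _ ⟨H, rfl⟩
    refine ⟨-H, ?_⟩
    funext p
    simp only [cob, Prod.fst_neg, Prod.snd_neg, Pi.neg_apply]
    ring

open Classical in
/-- Point mass. -/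
private noncomputable def dl (r s : ℕ) (p : Pl r s) : Pl r s → ℤ := fun x => if x = p then 1 else 0

private lemma dl_al (r s : ℕ) (p : Pl r s) : dl r s p - dl r s (al r s 1 p) ∈ Mg r s := by
  refine ⟨(dl r s (al r s 1 p), 0), ?_⟩
  funext x
  simp only [cob, dl, Pi.sub_apply, Pi.zero_apply, sub_zero]
  congr 1
  by_cases h : x = p
  · simp [h]
  · rw [if_neg h, if_neg]
    intro h'
    exact h (al_inj r s 1 h')

private lemma dl_ga (r s : ℕ) (p : Pl r s) : dl r s p - dl r s (ga r s p) ∈ Mg r s := by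
  refine ⟨(0, -dl r s (ga r s p)), ?_⟩
  funext x
  simp only [cob, dl, Pi.sub_apply, Pi.zero_apply, sub_zero, Pi.neg_apply]
  by_cases h : x = p
  · subst h
    rw [if_pos rfl, if_pos rfl]
    ring
  · have h2 : ga r s x ≠ ga r s p := fun h' => h ((ga_bij r s).1 h')
    rw [if_neg h, if_neg h2]
    ring

/-- The relation of points: the difference of the point masses is a coboundary. -/
private def Eqp (r s : ℕ) (p p' : Pl r s) : Prop := dl r s p - dl r s p' ∈ Mg r s

private lemma Eqp.refl' (r s : ℕ) (p : Pl r s) : Eqp r s p p := by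
  unfold Eqp
  rw [sub_self]
  exact zero_mem _

private lemma Eqp.symm' {r s : ℕ} {p p' : Pl r s} (h : Eqp r s p p') : Eqp r s p' p := by
  unfold Eqp at *
  have := neg_mem h
  rwa [neg_sub] at this

private lemma Eqp.trans' {r s : ℕ} {p p' p'' : Pl r s} (h : Eqp r s p p') (h' : Eqp r s p' p'') :
    Eqp r s p p'' := by
  unfold Eqp at *
  have := add_mem h h'
  rwa [sub_add_sub_cancel] at this

private lemma eqp_be (r s : ℕ) (p : Pl r s) : Eqp r s p (be r s (-1) p) := by
  obtain ⟨p', rfl⟩ := (al_bij r s 1).2 p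
  exact (Eqp.symm' (dl_al r s p')).trans' (dl_ga r s p')

private lemma eqp_y (r s : ℕ) : ∀ (n : ℕ) (y : ZMod (2 ^ s)), y = (n : ZMod (2 ^ s)) →
    Eqp r s (0, y) (0, 0) := by
  intro n
  induction n with
  | zero =>
    intro y hy
    rw [hy, Nat.cast_zero]
    exact Eqp.refl' r s _
  | succ n ih =>
    intro y hy
    have h1 := eqp_be r s (0, y)
    have h2 : be r s (-1) (0, y) = (0, y - 1) := by
      simp only [be, Prod.mk.injEq, zero_mul, true_and]
      push_cast
      ring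
    rw [h2] at h1
    refine h1.trans' (ih (y - 1) ?_)
    rw [hy]
    push_cast
    ring

private lemma eqp_xy (r s : ℕ) : ∀ (n : ℕ) (x : ZMod (2 ^ r)) (y : ZMod (2 ^ s)),
    x + (n : ZMod (2 ^ r)) = 0 → Eqp r s (x, y) (0, 0) := by
  intro n
  induction n with
  | zero =>
    intro x y hx
    rw [Nat.cast_zero, add_zero] at hx
    subst hx
    have : NeZero (2 ^ s) := ⟨by positivity⟩
    exact eqp_y r s y.val y (by rw [ZMod.natCast_val, ZMod.cast_id', id])
  | succ n ih =>
    intro x y hx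
    have h1 : Eqp r s (x, y) (al r s 1 (x, y)) := dl_al r s (x, y)
    refine h1.trans' ?_
    have h2 : al r s 1 (x, y) = ((al r s 1 (x, y)).1, (al r s 1 (x, y)).2) := rfl
    rw [h2]
    apply ih
    simp only [al]
    rw [← hx]
    push_cast
    ring

private lemma eqp_all (r s : ℕ) (p : Pl r s) : Eqp r s p (0, 0) := by
  obtain ⟨x, y⟩ := p
  have : NeZero (2 ^ r) := ⟨by positivity⟩
  refine eqp_xy r s (-x).val x y ?_
  rw [ZMod.natCast_val, ZMod.cast_id', id, add_neg_cancel]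

/-- Every function of sum zero is a coboundary. -/
private lemma sum_zero (r s : ℕ) (E : Pl r s → ℤ) (hE : ∑ p, E p = 0) : E ∈ Mg r s := by
  have h1 : E = ∑ p, E p • (dl r s p - dl r s (0, 0)) := by
    funext x
    rw [Finset.sum_apply]
    simp only [Pi.smul_apply, Pi.sub_apply, smul_eq_mul, mul_sub, Finset.sum_sub_distrib]
    rw [← Finset.sum_mul, hE, zero_mul, sub_zero]
    simp only [dl, mul_ite, mul_one, mul_zero]
    rw [Finset.sum_ite_eq Finset.univ x E]
    simp
  rw [h1]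
  refine sum_mem fun p _ => zsmul_mem ?_ _
  exact eqp_all r s p

/-- LFM. -/
theorem hLfm : StLfm := by
  intro r s M f1 f3 hrel
  have : NeZero (2 ^ M) := ⟨by positivity⟩
  have hM : (((2 ^ M : ℤ)) : ZMod (2 ^ M)) = 0 := by
    have h := ZMod.natCast_self (2 ^ M)
    push_cast at h ⊢
    exact h
  set g1 : Pl r s → ℤ := fun p => ((f1 p.1 p.2).val : ℤ) with hg1
  set g3 : Pl r s → ℤ := fun p => ((f3 p.1 p.2).val : ℤ) with hg3
  have c1 : ∀ p, ((g1 p : ℤ) : ZMod (2 ^ M)) = f1 p.1 p.2 := by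
    intro p
    simp only [hg1]
    rw [Int.cast_natCast, ZMod.natCast_val, ZMod.cast_id', id]
  have c3 : ∀ p, ((g3 p : ℤ) : ZMod (2 ^ M)) = f3 p.1 p.2 := by
    intro p
    simp only [hg3]
    rw [Int.cast_natCast, ZMod.natCast_val, ZMod.cast_id', id]
  have hev : ∀ p, (2 ^ M : ℤ) ∣ cob r s (g1, g3) p := by
    intro p
    have h := hrel p.1 p.2
    have h2 : ((cob r s (g1, g3) p : ℤ) : ZMod (2 ^ M)) = 0 := by
      simp only [cob, Int.cast_sub]
      rw [c1, c1, c3, c3]
      have h3 : f1 (al r s 1 p).1 (al r s 1 p).2 = tA 1 f1 p.1 p.2 := rfl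
      have h4 : f3 (ga r s p).1 (ga r s p).2 = tA 1 (tB (-1) f3) p.1 p.2 := rfl
      rw [h3, h4, h, sub_self]
    have h3 := (ZMod.intCast_zmod_eq_zero_iff_dvd _ (2 ^ M)).mp h2
    push_cast at h3
    exact h3
  choose E' hE' using hev
  have hs : ∑ p, cob r s (g1, g3) p = 0 := by
    simp only [cob, Finset.sum_sub_distrib]
    rw [Function.Bijective.sum_comp (al_bij r s 1) g1, Function.Bijective.sum_comp (ga_bij r s) g3]
    ring
  have hs' : ∑ p, E' p = 0 := by
    have h1 : ∑ p, cob r s (g1, g3) p = 2 ^ M * ∑ p, E' p := by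
      rw [Finset.mul_sum]
      exact Finset.sum_congr rfl fun p _ => hE' p
    rw [hs] at h1
    rcases mul_eq_zero.1 h1.symm with h2 | h2
    · exact absurd h2 (by positivity)
    · exact h2
  obtain ⟨H, hH⟩ := sum_zero r s E' hs'
  refine ⟨fun x y => g1 (x, y) - 2 ^ M * H.1 (x, y), fun x y => g3 (x, y) - 2 ^ M * H.2 (x, y),
    ?_, ?_, ?_⟩
  · intro x y
    have h1 := hE' (x, y)
    have h2 := congrFun hH (x, y)
    have e1 : tA 1 (fun x y => g1 (x, y) - 2 ^ M * H.1 (x, y)) x y =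
        g1 (al r s 1 (x, y)) - 2 ^ M * H.1 (al r s 1 (x, y)) := rfl
    have e2 : tA 1 (tB (-1) (fun x y => g3 (x, y) - 2 ^ M * H.2 (x, y))) x y =
        g3 (ga r s (x, y)) - 2 ^ M * H.2 (ga r s (x, y)) := rfl
    rw [e1, e2]
    simp only [cob] at h1 h2
    rw [← h2] at h1
    linear_combination h1
  · intro x y
    rw [Int.cast_sub, Int.cast_mul, hM, zero_mul, sub_zero]
    exact c1 (x, y)
  · intro x y
    rw [Int.cast_sub, Int.cast_mul, hM, zero_mul, sub_zero]
    exact c3 (x, y)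

end Pool.Agent.Helper97.WK
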